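import Pool.Agent.W648.UN.Stm2

/-!
# Landsberg unicorn: the local smooth branch of the parameter (part UN-LOC)
-/

set_option autoImplicit false

open MeasureTheory Set Filter Topology
open scoped ContDiff

noncomputable section

namespace Pool.Agent.W191.UN

open Pool.Agent.W648.UN

theorem th : S_LOC := by
  intro U T p q A B m1 m2 hG x hx y hy θ hθ
  obtain ⟨hq0, hp0⟩ := hθ
  -- smoothness of q, p near the point
  have hUn : U ×ˢ (univ : Set ℝ) ∈ 𝓝 (x, θ) := by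
    apply (hG.oU.prod isOpen_univ).mem_nhds
    exact ⟨hx, mem_univ _⟩
  have sq : ContDiffAt ℝ ∞ (fun z : (Fin 2 → ℝ) × ℝ => q z.1 z.2) (x, θ) :=
    hG.sq.contDiffAt hUn
  have sp : ContDiffAt ℝ ∞ (fun z : (Fin 2 → ℝ) × ℝ => p z.1 z.2) (x, θ) :=
    hG.sp.contDiffAt hUn
  set u : ((Fin 2 → ℝ) × (Fin 2 → ℝ)) × ℝ := ((x, y), θ) with hu
  let f : ((Fin 2 → ℝ) × (Fin 2 → ℝ)) × ℝ → ℝ := fun w => dot (q w.1.1 w.2) w.1.2
  let g : ((Fin 2 → ℝ) × (Fin 2 → ℝ)) × ℝ → ℝ := fun w => dot (p w.1.1 w.2) w.1.2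
  have hproj : ContDiffAt ℝ ∞ (fun w : ((Fin 2 → ℝ) × (Fin 2 → ℝ)) × ℝ => (w.1.1, w.2)) u := by
    fun_prop
  have hqi : ∀ i, ContDiffAt ℝ ∞ (fun w : ((Fin 2 → ℝ) × (Fin 2 → ℝ)) × ℝ => q w.1.1 w.2 i) u := by
    intro i
    have h1 : ContDiffAt ℝ ∞ (fun w : ((Fin 2 → ℝ) × (Fin 2 → ℝ)) × ℝ => q w.1.1 w.2) u :=
      ContDiffAt.comp u (g := fun z : (Fin 2 → ℝ) × ℝ => q z.1 z.2) sq hproj
    exact (contDiffAt_pi.1 h1) i
  have hpi : ∀ i, ContDiffAt ℝ ∞ (fun w : ((Fin 2 → ℝ) × (Fin 2 → ℝ)) × ℝ => p w.1.1 w.2 i) u := by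
    intro i
    have h1 : ContDiffAt ℝ ∞ (fun w : ((Fin 2 → ℝ) × (Fin 2 → ℝ)) × ℝ => p w.1.1 w.2) u :=
      ContDiffAt.comp u (g := fun z : (Fin 2 → ℝ) × ℝ => p z.1 z.2) sp hproj
    exact (contDiffAt_pi.1 h1) i
  have hyi : ∀ i, ContDiffAt ℝ ∞ (fun w : ((Fin 2 → ℝ) × (Fin 2 → ℝ)) × ℝ => w.1.2 i) u := by
    intro i
    have h1 : ContDiffAt ℝ ∞ (fun w : ((Fin 2 → ℝ) × (Fin 2 → ℝ)) × ℝ => w.1.2) u := by fun_prop
    exact (contDiffAt_pi.1 h1) i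
  have hf : ContDiffAt ℝ ∞ f u := ((hqi 0).mul (hyi 0)).add ((hqi 1).mul (hyi 1))
  have hgc : ContDiffAt ℝ ∞ g u := ((hpi 0).mul (hyi 0)).add ((hpi 1).mul (hyi 1))
  have hfu : f u = 0 := hq0
  -- derivative in θ
  have hder : HasDerivAt (fun t : ℝ => f ((x, y), t)) (-dot (p x θ) y) θ := by
    have h0 := (hG.dqt x hx θ 0).mul_const (y 0)
    have h1 := (hG.dqt x hx θ 1).mul_const (y 1)
    have h2 := h0.add h1
    refine h2.congr_deriv ?_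
    have h3 : q x θ 0 * y 0 + q x θ 1 * y 1 = 0 := hq0
    unfold dot
    linear_combination -(m1 x θ) * h3
  have hdiff : DifferentiableAt ℝ f u := hf.differentiableAt (by simp)
  have hcomp : (fderiv ℝ f u ∘L ContinuousLinearMap.inr ℝ ((Fin 2 → ℝ) × (Fin 2 → ℝ)) ℝ) 1 =
      -dot (p x θ) y := by
    have hin : HasDerivAt (fun t : ℝ => (((x, y), t) : ((Fin 2 → ℝ) × (Fin 2 → ℝ)) × ℝ))
        ((0 : (Fin 2 → ℝ) × (Fin 2 → ℝ)), (1 : ℝ)) θ :=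
      (hasDerivAt_const θ ((x, y) : (Fin 2 → ℝ) × (Fin 2 → ℝ))).prodMk (hasDerivAt_id θ)
    have h1 := HasFDerivAt.comp_hasDerivAt θ (l := f)
      (f := fun t : ℝ => (((x, y), t) : ((Fin 2 → ℝ) × (Fin 2 → ℝ)) × ℝ)) hdiff.hasFDerivAt hin
    have h2 := h1.unique hder
    rw [← h2]
    rfl
  have hc : -dot (p x θ) y ≠ 0 := neg_ne_zero.2 hp0.ne'
  have hinv : (fderiv ℝ f u ∘L ContinuousLinearMap.inr ℝ ((Fin 2 → ℝ) × (Fin 2 → ℝ)) ℝ).IsInvertible := by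
    refine ⟨ContinuousLinearEquiv.unitsEquivAut ℝ (Units.mk0 (-dot (p x θ) y) hc), ?_⟩
    ext
    simp [hcomp]
  let Θ := hf.implicitFunction (by simp) hinv
  have hΘ0 : Θ (x, y) = θ := hf.implicitFunction_apply_self (by simp) hinv
  have hΘs : ContDiffAt ℝ ∞ Θ (x, y) := hf.contDiffAt_implicitFunction (by simp) hinv
  have hΘe := hf.eventually_apply_implicitFunction (by simp) hinv
  refine ⟨Θ, hΘs, hΘ0, ?_⟩
  have hcont : ContinuousAt (fun z : (Fin 2 → ℝ) × (Fin 2 → ℝ) => g (z, Θ z)) (x, y) := by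
    have h1 : ContinuousAt (fun z : (Fin 2 → ℝ) × (Fin 2 → ℝ) => (z, Θ z)) (x, y) :=
      continuousAt_id.prodMk hΘs.continuousAt
    have h2 : ContinuousAt g ((x, y), Θ (x, y)) := by
      rw [hΘ0]; exact hgc.continuousAt
    exact ContinuousAt.comp (g := g) h2 h1
  have hpos : ∀ᶠ z in 𝓝 (x, y), 0 < g (z, Θ z) := by
    apply hcont.eventually_const_lt
    change 0 < g ((x, y), Θ (x, y))
    rw [hΘ0]
    exact hp0
  filter_upwards [hΘe, hpos] with z h1 h2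
  refine ⟨?_, h2⟩
  rw [hfu] at h1
  exact h1

end Pool.Agent.W191.UN
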